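import Pool.Agent.H46.LC.Tri

/-!
The number of `s ≤ Q` whose fifth powers are near cubes is at most `3 Q ^ (8/9)`.
-/

namespace Pool.Agent.H46.LC

open Finset

open Classical in
/-- The `s` in `[m, n]` whose fifth powers are near cubes. -/
noncomputable def T (m n : ℕ) : Finset ℕ := (Icc m n).filter Near

/-- The number of them in `[M, 2 M]`. -/
lemma block {M A : ℕ} (hM : 3400 ≤ M) (hA : 0 < A) (hAM : 2 * (A - 1) ^ 9 < M) :
    (T M (2 * M)).card ≤ 2 * (M / A + 2) := by
  classical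
  have himg : ((T M (2 * M)).image fun s => s / A) ⊆ Icc (M / A) (2 * M / A) := by
    intro t ht
    rw [mem_image] at ht
    obtain ⟨s, hs, rfl⟩ := ht
    rw [T, mem_filter, mem_Icc] at hs
    rw [mem_Icc]
    exact ⟨Nat.div_le_div_right hs.1.1, Nat.div_le_div_right hs.1.2⟩
  have hcard : ((T M (2 * M)).image fun s => s / A).card ≤ M / A + 2 := by
    refine (card_le_card himg).trans ?_
    rw [Nat.card_Icc]
    have h1 : 2 * M / A ≤ M / A + M / A + 1 := by
      rw [two_mul, Nat.add_div hA]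
      generalize M / A = d
      split_ifs <;> omega
    generalize 2 * M / A = e at h1 ⊢
    generalize M / A = d at h1 ⊢
    omega
  have hfib : ∀ t ∈ (T M (2 * M)).image fun s => s / A,
      ((T M (2 * M)).filter fun s => s / A = t).card ≤ 2 := by
    intro t _
    by_contra h
    push Not at h
    obtain ⟨a, b, c, ha, hb, hc, hab, hac, hbc⟩ := Finset.two_lt_card_iff.1 h
    -- order them
    have key : ∀ x y z : ℕ, x ∈ (T M (2 * M)).filter (fun s => s / A = t) →
        y ∈ (T M (2 * M)).filter (fun s => s / A = t) →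
        z ∈ (T M (2 * M)).filter (fun s => s / A = t) → x < y → y < z → False := by
      intro x y z hx hy hz hxy hyz
      rw [T, mem_filter, mem_filter, mem_Icc] at hx hy hz
      have h1 := three (by omega : 3400 ≤ x) hxy hyz (by omega) hx.1.2 hy.1.2 hz.1.2
      have h2 : z - x ≤ A - 1 := by
        have h3 := Nat.div_add_mod x A
        have h4 := Nat.div_add_mod z A
        have h5 := Nat.mod_lt z hA
        rw [hx.2] at h3
        rw [hz.2] at h4
        omega
      have h3 : (z - x) ^ 9 ≤ (A - 1) ^ 9 := Nat.pow_le_pow_left h2 9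
      omega
    rcases lt_or_gt_of_ne hab with h1 | h1 <;> rcases lt_or_gt_of_ne hac with h2 | h2 <;>
      rcases lt_or_gt_of_ne hbc with h3 | h3
    · exact key a b c ha hb hc h1 h3
    · exact key a c b ha hc hb h2 h3
    · omega
    · exact key c a b hc ha hb h2 h1
    · exact key b a c hb ha hc h1 h2
    · omega
    · exact key b c a hb hc ha h3 h2
    · exact key c b a hc hb ha h3 h1
  calc (T M (2 * M)).card ≤ 2 * ((T M (2 * M)).image fun s => s / A).card :=
        Finset.card_le_mul_card_image _ 2 hfib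
    _ ≤ 2 * (M / A + 2) := Nat.mul_le_mul_left 2 hcard

/-- The number of the `s ≤ Q` whose fifth powers are near cubes: at most `3 Q ^ (8/9)`. -/
theorem count (Q : ℕ) : ∀ y : ℝ, 0 ≤ y → (Q : ℝ) ≤ y ^ 9 → ((T 1 Q).card : ℝ) ≤ 3 * y ^ 8 := by
  classical
  induction Q using Nat.strong_induction_on with
  | _ Q ih =>
  intro y hy hQ
  rcases le_or_gt Q 19683 with hsm | hbig
  · have h1 : (T 1 Q).card ≤ Q := by
      refine (card_filter_le _ _).trans ?_
      rw [Nat.card_Icc]
      omega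
    have h2 : ((T 1 Q).card : ℝ) ≤ Q := by exact_mod_cast h1
    rcases le_or_gt y 3 with h3 | h3
    · calc ((T 1 Q).card : ℝ) ≤ Q := h2
        _ ≤ y ^ 9 := hQ
        _ = y * y ^ 8 := by ring
        _ ≤ 3 * y ^ 8 := by gcongr
    · calc ((T 1 Q).card : ℝ) ≤ Q := h2
        _ ≤ 19683 := by exact_mod_cast hsm
        _ = 3 * 3 ^ 8 := by norm_num
        _ ≤ 3 * y ^ 8 := by gcongr
  · have hy3 : 3 ≤ y := by
      by_contra h
      push Not at h
      have h1 : y ^ 9 ≤ 3 ^ 9 := by gcongr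
      have h2 : (19683 : ℝ) < Q := by exact_mod_cast hbig
      norm_num at h1
      linarith
    obtain ⟨M, hM⟩ : ∃ M : ℕ, M = (Q + 1) / 2 := ⟨_, rfl⟩
    have hM1 : Q ≤ 2 * M := by omega
    have hM2 : 2 * M ≤ Q + 1 := by omega
    have hM3 : 3400 ≤ M := by omega
    have hsplit : (T 1 Q).card ≤ (T 1 (M - 1)).card + (T M (2 * M)).card := by
      refine le_trans (card_le_card ?_) (card_union_le _ _)
      intro s hs
      rw [T, mem_filter, mem_Icc] at hs
      rw [mem_union, T, T, mem_filter, mem_filter, mem_Icc, mem_Icc]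
      by_cases h : s ≤ M - 1
      · left
        exact ⟨⟨hs.1.1, h⟩, hs.2⟩
      · right
        exact ⟨⟨by omega, by omega⟩, hs.2⟩
    -- the first part
    have hr : (2 * (M : ℝ)) ≤ Q + 1 := by exact_mod_cast hM2
    have hQr : (19683 : ℝ) < Q := by exact_mod_cast hbig
    have h1 : ((T 1 (M - 1)).card : ℝ) ≤ 3 * (463 / 500 * y) ^ 8 := by
      apply ih (M - 1) (by omega) _ (by positivity)
      rw [Nat.cast_sub (by omega), Nat.cast_one, mul_pow]
      have h2 : (1 / 2 : ℝ) ≤ (463 / 500) ^ 9 := by norm_num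
      have h3 : 0 ≤ y ^ 9 := by positivity
      have h4 : 1 / 2 * y ^ 9 ≤ (463 / 500) ^ 9 * y ^ 9 := by gcongr
      linarith
    -- the second part
    have hex : ∃ A : ℕ, M ≤ 2 * A ^ 9 := ⟨M, by
      have : M ≤ M ^ 9 := Nat.le_self_pow (by norm_num) M
      omega⟩
    obtain ⟨A, hA⟩ : ∃ A : ℕ, A = Nat.find hex := ⟨_, rfl⟩
    have hA1 : M ≤ 2 * A ^ 9 := by rw [hA]; exact Nat.find_spec hex
    have hA0 : 0 < A := by
      rcases Nat.eq_zero_or_pos A with h | h
      · rw [h] at hA1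
        norm_num at hA1
        omega
      · exact h
    have hA2 : 2 * (A - 1) ^ 9 < M := by
      have := Nat.find_min hex (m := A - 1) (by omega)
      omega
    have h2 := block hM3 hA0 hA2
    have hA3 : (M : ℝ) ≤ 73 / 125 * A * y ^ 8 := by
      have hM0 : (0 : ℝ) < M := by
        have : 0 < M := by omega
        exact_mod_cast this
      have hA4 : (M : ℝ) / 2 ≤ (A : ℝ) ^ 9 := by
        have : (M : ℝ) ≤ 2 * (A : ℝ) ^ 9 := by exact_mod_cast hA1
        linarith
      have hMQ : (M : ℝ) ≤ 50003 / 100000 * Q := by linarith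
      have h3 : (M : ℝ) ^ 9 ≤ (73 / 125 * A * y ^ 8) ^ 9 := by
        have hQ0 : (0 : ℝ) ≤ Q := Nat.cast_nonneg Q
        have h4 : (M : ℝ) ^ 8 ≤ (73 / 125) ^ 9 / 2 * Q ^ 8 := by
          calc (M : ℝ) ^ 8 ≤ (50003 / 100000 * Q) ^ 8 := by gcongr
            _ = (50003 / 100000) ^ 8 * (Q : ℝ) ^ 8 := by ring
            _ ≤ (73 / 125) ^ 9 / 2 * Q ^ 8 := by
                apply mul_le_mul_of_nonneg_right _ (by positivity)
                norm_num
        calc (M : ℝ) ^ 9 = (M : ℝ) * (M : ℝ) ^ 8 := by ring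
          _ ≤ (M : ℝ) * ((73 / 125) ^ 9 / 2 * (Q : ℝ) ^ 8) := by gcongr
          _ = (73 / 125) ^ 9 * ((M : ℝ) / 2) * (Q : ℝ) ^ 8 := by ring
          _ ≤ (73 / 125) ^ 9 * (A : ℝ) ^ 9 * (y ^ 9) ^ 8 := by gcongr
          _ = (73 / 125 * A * y ^ 8) ^ 9 := by ring
      exact le_of_pow_le_pow_left₀ (by norm_num) (by positivity) h3
    have hdiv : ((M / A : ℕ) : ℝ) ≤ 73 / 125 * y ^ 8 := by
      have hA5 : (0 : ℝ) < A := by exact_mod_cast hA0
      refine (Nat.cast_div_le).trans ?_
      rw [div_le_iff₀ hA5]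
      calc (M : ℝ) ≤ 73 / 125 * A * y ^ 8 := hA3
        _ = 73 / 125 * y ^ 8 * A := by ring
    have h3 : ((T M (2 * M)).card : ℝ) ≤ 2 * (73 / 125 * y ^ 8 + 2) := by
      have h4 : ((T M (2 * M)).card : ℝ) ≤ 2 * (((M / A : ℕ) : ℝ) + 2) := by exact_mod_cast h2
      linarith
    have h4 : (6561 : ℝ) ≤ y ^ 8 := by
      calc (6561 : ℝ) = 3 ^ 8 := by norm_num
        _ ≤ y ^ 8 := by gcongr
    have h5 : (463 / 500 * y) ^ 8 ≤ 5407 / 10000 * y ^ 8 := by
      rw [mul_pow]
      apply mul_le_mul_of_nonneg_right _ (by positivity)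
      norm_num
    have h6 : ((T 1 Q).card : ℝ) ≤ (T 1 (M - 1)).card + (T M (2 * M)).card := by
      exact_mod_cast hsplit
    linarith

end Pool.Agent.H46.LC
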