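import Pool.Agent.H46.LC.Red
import Pool.Agent.H46.LC.Cnt

/-!
The number of failures with a short gap is at most `12 x ^ (8/45)`.
-/

namespace Pool.Agent.H46.LC

open Finset Pool.Agent.H83.LC

/-- Indices of gaps which contain a power of exponent at least seven of a prime. -/
lemma card_seven (x Y : ℕ) (hY : ∀ n : ℕ, n ^ 7 ≤ 2 * x → n ≤ Y) (W : Set ℕ)
    (hW : ∀ k ∈ W, Nat.nth Nat.Prime k ≤ x ∧ ∃ q a : ℕ, q.Prime ∧ 7 ≤ a ∧
      Nat.nth Nat.Prime k < q ^ a ∧ q ^ a < Nat.nth Nat.Prime (k + 1)) : W.ncard ≤ 7 * Y := by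
  classical
  have hch : ∀ k : ℕ, ∃ w : ℕ × ℕ, k ∈ W → w.1.Prime ∧ 7 ≤ w.2 ∧
      Nat.nth Nat.Prime k < w.1 ^ w.2 ∧ w.1 ^ w.2 < Nat.nth Nat.Prime (k + 1) := by
    intro k
    by_cases hk : k ∈ W
    · obtain ⟨_, q, a, h⟩ := hW k hk
      exact ⟨(q, a), fun _ => h⟩
    · exact ⟨(0, 0), fun h => absurd h hk⟩
  choose w hw using hch
  have hmono := Nat.nth_strictMono Nat.infinite_setOfPred_prime
  have hcard : (((Finset.Icc 1 Y) ×ˢ (Finset.range 7) : Finset (ℕ × ℕ)) : Set (ℕ × ℕ)).ncard =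
      7 * Y := by
    rw [Set.ncard_coe_finset, Finset.card_product, Nat.card_Icc, Finset.card_range]
    omega
  rw [← hcard]
  refine Set.ncard_le_ncard_of_injOn (fun k => ((w k).1 ^ ((w k).2 / 7), (w k).2 % 7)) ?_ ?_
    (Finset.finite_toSet _)
  · intro k hk
    obtain ⟨h1, h2, h3, h4⟩ := hw k hk
    rw [Finset.mem_coe, Finset.mem_product, Finset.mem_Icc, Finset.mem_range]
    refine ⟨⟨Nat.one_le_pow _ _ h1.pos, ?_⟩, Nat.mod_lt _ (by norm_num)⟩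
    apply hY
    rw [← pow_mul]
    have h5 : (w k).1 ^ ((w k).2 / 7 * 7) ≤ (w k).1 ^ (w k).2 :=
      Nat.pow_le_pow_right h1.pos (Nat.div_mul_le_self _ _)
    have h6 := nth_le_two_mul k
    have h7 := (hW k hk).1
    omega
  · intro k hk l hl hkl
    obtain ⟨h1, h2, h3, h4⟩ := hw k hk
    obtain ⟨g1, g2, g3, g4⟩ := hw l hl
    simp only [Prod.mk.injEq] at hkl
    obtain ⟨e1, e2⟩ := hkl
    have hq : (w k).1 = (w l).1 := by
      have hd : (w k).1 ∣ (w l).1 ^ ((w l).2 / 7) := by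
        rw [← e1]
        exact dvd_pow_self _ (by omega)
      exact (Nat.prime_dvd_prime_iff_eq h1 g1).1 (h1.dvd_of_dvd_pow hd)
    have he : (w k).2 / 7 = (w l).2 / 7 := by
      rw [hq] at e1
      exact Nat.pow_right_injective g1.two_le e1
    have ha : (w k).2 = (w l).2 := by omega
    rw [hq, ha] at h3 h4
    rcases lt_trichotomy k l with h | h | h
    · have h5 : Nat.nth Nat.Prime (k + 1) ≤ Nat.nth Nat.Prime l := hmono.monotone h
      omega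
    · exact h
    · have h5 : Nat.nth Nat.Prime (l + 1) ≤ Nat.nth Nat.Prime k := hmono.monotone h
      omega

/-- Indices of gaps which contain a fifth power near a cube. -/
lemma card_near (x Q : ℕ) (hQ : ∀ n : ℕ, n ^ 5 ≤ 2 * x → n ≤ Q) (W : Set ℕ)
    (hW : ∀ k ∈ W, Nat.nth Nat.Prime k ≤ x ∧ ∃ s : ℕ, s.Prime ∧ Near s ∧
      Nat.nth Nat.Prime k < s ^ 5 ∧ s ^ 5 < Nat.nth Nat.Prime (k + 1)) :
    W.ncard ≤ (T 1 Q).card := by
  classical
  have hch : ∀ k : ℕ, ∃ s : ℕ, k ∈ W → s.Prime ∧ Near s ∧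
      Nat.nth Nat.Prime k < s ^ 5 ∧ s ^ 5 < Nat.nth Nat.Prime (k + 1) := by
    intro k
    by_cases hk : k ∈ W
    · obtain ⟨_, s, h⟩ := hW k hk
      exact ⟨s, fun _ => h⟩
    · exact ⟨0, fun h => absurd h hk⟩
  choose w hw using hch
  have hmono := Nat.nth_strictMono Nat.infinite_setOfPred_prime
  rw [← Set.ncard_coe_finset]
  refine Set.ncard_le_ncard_of_injOn w ?_ ?_ (Finset.finite_toSet _)
  · intro k hk
    obtain ⟨h1, h2, h3, h4⟩ := hw k hk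
    rw [Finset.mem_coe, T, Finset.mem_filter, Finset.mem_Icc]
    refine ⟨⟨h1.one_lt.le, hQ _ ?_⟩, h2⟩
    have h6 := nth_le_two_mul k
    have h7 := (hW k hk).1
    omega
  · intro k hk l hl hkl
    obtain ⟨h1, h2, h3, h4⟩ := hw k hk
    obtain ⟨g1, g2, g3, g4⟩ := hw l hl
    rw [hkl] at h3 h4
    rcases lt_trichotomy k l with h | h | h
    · have h5 : Nat.nth Nat.Prime (k + 1) ≤ Nat.nth Nat.Prime l := hmono.monotone h
      omega
    · exact h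
    · have h5 : Nat.nth Nat.Prime (l + 1) ≤ Nat.nth Nat.Prime k := hmono.monotone h
      omega

lemma K_finite (x : ℕ) : (K x).Finite := by
  refine (Set.finite_Iic x).subset ?_
  intro k hk
  have h1 : k ≤ Nat.nth Nat.Prime k :=
    (Nat.nth_strictMono Nat.infinite_setOfPred_prime).le_apply
  exact h1.trans hk.1

/-- The failures with a short gap. -/
theorem K_le (x Q Y : ℕ) (hQ : ∀ n : ℕ, n ^ 5 ≤ 2 * x → n ≤ Q)
    (hY : ∀ n : ℕ, n ^ 7 ≤ 2 * x → n ≤ Y) : (K x).ncard ≤ 7 * Y + (T 1 Q).card := by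
  classical
  set W1 : Set ℕ := {k | k ∈ K x ∧ ∃ q a : ℕ, q.Prime ∧ 7 ≤ a ∧
    Nat.nth Nat.Prime k < q ^ a ∧ q ^ a < Nat.nth Nat.Prime (k + 1)} with hW1
  set W2 : Set ℕ := {k | k ∈ K x ∧ ∃ s : ℕ, s.Prime ∧ Near s ∧
    Nat.nth Nat.Prime k < s ^ 5 ∧ s ^ 5 < Nat.nth Nat.Prime (k + 1)} with hW2
  have hsub : K x ⊆ W1 ∪ W2 := by
    intro k hk
    rcases K_seven hk with h | h
    · exact Or.inl ⟨hk, h⟩
    · exact Or.inr ⟨hk, h⟩
  have hfin : (W1 ∪ W2).Finite :=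
    ((K_finite x).subset fun k hk => hk.1).union ((K_finite x).subset fun k hk => hk.1)
  refine (Set.ncard_le_ncard hsub hfin).trans ((Set.ncard_union_le _ _).trans ?_)
  exact add_le_add (card_seven x Y hY W1 fun k hk => ⟨hk.1.1, hk.2⟩)
    (card_near x Q hQ W2 fun k hk => ⟨hk.1.1, hk.2⟩)

/-- From a count of the near fifth powers to the number of failures. -/
theorem K_bound (x : ℕ) (hx : 1 ≤ x) (j : ℕ) (C : ℝ)
    (hj : (1 / 7 : ℝ) ≤ (j : ℝ) / 45)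
    (hcount : ∀ (Q : ℕ) (y : ℝ), 0 ≤ y → (Q : ℝ) ≤ y ^ 9 → ((T 1 Q).card : ℝ) ≤ C * y ^ j) :
    ((K x).ncard : ℝ) ≤ (7 + C) * (2 * (x : ℝ)) ^ ((j : ℝ) / 45) := by
  have hx1 : (1 : ℝ) ≤ x := by exact_mod_cast hx
  have h2x : (1 : ℝ) ≤ 2 * (x : ℝ) := by linarith
  have h2x0 : (0 : ℝ) ≤ 2 * (x : ℝ) := by linarith
  set z : ℝ := (2 * (x : ℝ)) ^ (1 / 5 : ℝ) with hz
  set v : ℝ := (2 * (x : ℝ)) ^ (1 / 7 : ℝ) with hv
  set y : ℝ := (2 * (x : ℝ)) ^ (1 / 45 : ℝ) with hy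
  have hz0 : 0 ≤ z := by positivity
  have hv0 : 0 ≤ v := by positivity
  have hy0 : 0 ≤ y := by positivity
  have hz5 : z ^ 5 = 2 * x := by
    rw [hz, ← Real.rpow_natCast, ← Real.rpow_mul h2x0]
    norm_num
  have hv7 : v ^ 7 = 2 * x := by
    rw [hv, ← Real.rpow_natCast, ← Real.rpow_mul h2x0]
    norm_num
  have hy9 : y ^ 9 = z := by
    rw [hy, hz, ← Real.rpow_natCast, ← Real.rpow_mul h2x0]
    norm_num
  have hyj : y ^ j = (2 * (x : ℝ)) ^ ((j : ℝ) / 45) := by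
    rw [hy, ← Real.rpow_natCast, ← Real.rpow_mul h2x0]
    congr 1
    ring
  have h1 := K_le x ⌊z⌋₊ ⌊v⌋₊ (by
    intro n hn
    refine Nat.le_floor ?_
    have h2 : ((n : ℝ)) ^ 5 ≤ z ^ 5 := by
      rw [hz5]
      exact_mod_cast hn
    exact (pow_le_pow_iff_left₀ (Nat.cast_nonneg n) hz0 (by norm_num)).1 h2) (by
    intro n hn
    refine Nat.le_floor ?_
    have h2 : ((n : ℝ)) ^ 7 ≤ v ^ 7 := by
      rw [hv7]
      exact_mod_cast hn
    exact (pow_le_pow_iff_left₀ (Nat.cast_nonneg n) hv0 (by norm_num)).1 h2)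
  have h2 : (((T 1 ⌊z⌋₊).card : ℕ) : ℝ) ≤ C * y ^ j := by
    apply hcount _ y hy0
    rw [hy9]
    exact Nat.floor_le hz0
  have h3 : v ≤ (2 * (x : ℝ)) ^ ((j : ℝ) / 45) := Real.rpow_le_rpow_of_exponent_le h2x hj
  have h4 : ((⌊v⌋₊ : ℕ) : ℝ) ≤ v := Nat.floor_le hv0
  have h5 : (((K x).ncard : ℕ) : ℝ) ≤ 7 * ((⌊v⌋₊ : ℕ) : ℝ) + (((T 1 ⌊z⌋₊).card : ℕ) : ℝ) := by
    exact_mod_cast h1
  rw [hyj] at h2
  nlinarith

lemma K_zero : K 0 = ∅ := by
  ext k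
  simp only [Set.mem_empty_iff_false, iff_false]
  intro hk
  have := hk.1
  have := (Nat.prime_nth_prime k).pos
  omega

/-- The fallback: at most `12 x ^ (8/45)` failures. -/
theorem K_eight (x : ℕ) : ((K x).ncard : ℝ) ≤ 12 * (x : ℝ) ^ (8 / 45 : ℝ) := by
  rcases Nat.eq_zero_or_pos x with h | h
  · subst h
    rw [K_zero, Set.ncard_empty, Nat.cast_zero]
    positivity
  · have h1 := K_bound x h 8 3 (by norm_num) (fun Q y => count Q y)
    have hx : (0 : ℝ) ≤ x := Nat.cast_nonneg x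
    rw [Real.mul_rpow (by norm_num) hx] at h1
    have h4 : (2 : ℝ) ^ (8 / 45 : ℝ) ≤ 6 / 5 := by
      have h5 : ((2 : ℝ) ^ (8 / 45 : ℝ)) ^ 45 ≤ (6 / 5) ^ 45 := by
        rw [← Real.rpow_natCast, ← Real.rpow_mul (by norm_num)]
        norm_num
      exact (pow_le_pow_iff_left₀ (by positivity) (by norm_num) (by norm_num)).1 h5
    have h6 : 0 ≤ (x : ℝ) ^ (8 / 45 : ℝ) := by positivity
    have h7 : ((8 : ℕ) : ℝ) / 45 = 8 / 45 := by norm_num
    rw [h7] at h1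
    nlinarith

end Pool.Agent.H46.LC
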