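import Pool.Agent.H46.LC.Fin

/-!
From a count of lattice points near the curve `t ^ (5/3)` to the number of failures with a short gap.
-/

namespace Pool.Agent.H46.LC

open Finset Pool.Agent.H83.LC

/-- A fifth power near a cube gives an integer near `s ^ (5/3)`. -/
lemma near_dist {s : ℕ} (hs : Near s) {S : ℝ} (hS : 1 ≤ S) (hSs : S < s) :
    ∃ r : ℤ, |(r : ℝ) - (s : ℝ) ^ (5 / 3 : ℝ)| ≤ 4 * S ^ (-(5 / 6) : ℝ) := by
  obtain ⟨r, hr⟩ := hs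
  refine ⟨(r : ℤ), ?_⟩
  have hS0 : 0 < S := by linarith
  have hs0 : (0 : ℝ) < s := hS0.trans hSs
  set w : ℝ := (s : ℝ) ^ (1 / 6 : ℝ) with hw
  set w₁ : ℝ := S ^ (1 / 6 : ℝ) with hw₁
  have hw6 : w ^ 6 = s := by
    rw [hw, ← Real.rpow_natCast, ← Real.rpow_mul hs0.le]
    norm_num
  have h1 : 0 < w₁ := Real.rpow_pos_of_pos hS0 _
  have h2 : w₁ ≤ w := Real.rpow_le_rpow hS0.le hSs.le (by norm_num)
  have h3 := delta (r := (r : ℝ)) (Nat.cast_nonneg _) h1 h2 (by rw [hw6]; exact_mod_cast hr)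
  have h4 : (w ^ 2) ^ 5 = (s : ℝ) ^ (5 / 3 : ℝ) := by
    rw [← pow_mul, hw, ← Real.rpow_natCast, ← Real.rpow_mul hs0.le]
    norm_num
  have h5 : w₁ ^ 5 = S ^ (5 / 6 : ℝ) := by
    rw [hw₁, ← Real.rpow_natCast, ← Real.rpow_mul hS0.le]
    norm_num
  rw [h4, h5] at h3
  rw [Real.rpow_neg hS0.le, ← div_eq_mul_inv, le_div_iff₀ (Real.rpow_pos_of_pos hS0 _)]
  rw [Int.cast_natCast]
  exact h3

/-- The dyadic sum. -/
lemma count_gen (al : ℝ) (hal : 5 / 7 ≤ al)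
    (h : ∀ K : ℝ, ∃ C : ℝ, ∀ S : ℝ, 1 ≤ S → ∀ (Z : Finset ℕ) (r : ℕ → ℤ),
      (∀ s ∈ Z, S < (s : ℝ)) → (∀ s ∈ Z, (s : ℝ) ≤ 2 * S) →
      (∀ s ∈ Z, |(r s : ℝ) - (s : ℝ) ^ (5 / 3 : ℝ)| ≤ K * S ^ (-(5 / 6) : ℝ)) →
      (Z.card : ℝ) ≤ C * S ^ al) :
    ∃ C : ℝ, 0 ≤ C ∧ ∀ Q : ℕ, ((T 1 Q).card : ℝ) ≤ C * (Q : ℝ) ^ al := by
  classical
  obtain ⟨C, hC⟩ := h 4
  have hal0 : 0 < al := by linarith
  refine ⟨max 1 (2 * C), le_trans zero_le_one (le_max_left _ _), ?_⟩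
  set D : ℝ := max 1 (2 * C) with hD
  have hD1 : 1 ≤ D := le_max_left _ _
  have hDC : C ≤ D / 2 := by
    have := le_max_right 1 (2 * C)
    rw [← hD] at this
    linarith
  intro Q
  induction Q using Nat.strong_induction_on with
  | _ Q ih =>
  rcases Nat.lt_or_ge Q 2 with hQ | hQ
  · interval_cases Q
    · have : T 1 0 = ∅ := by
        rw [T]
        simp
      rw [this, card_empty, Nat.cast_zero, Real.zero_rpow hal0.ne']
      simp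
    · have h1 : (T 1 1).card ≤ 1 := by
        refine (card_filter_le _ _).trans ?_
        simp
      rw [Nat.cast_one, Real.one_rpow, mul_one]
      have h2 : ((T 1 1).card : ℝ) ≤ 1 := by exact_mod_cast h1
      exact h2.trans hD1
  · have hQr : (2 : ℝ) ≤ Q := by exact_mod_cast hQ
    have hS : (1 : ℝ) ≤ (Q : ℝ) / 2 := by linarith
    -- the upper half
    set Z : Finset ℕ := (T 1 Q).filter (fun s => (Q : ℝ) / 2 < (s : ℝ)) with hZ
    have hch : ∀ s : ℕ, ∃ r : ℤ, s ∈ Z →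
        |(r : ℝ) - (s : ℝ) ^ (5 / 3 : ℝ)| ≤ 4 * ((Q : ℝ) / 2) ^ (-(5 / 6) : ℝ) := by
      intro s
      by_cases hs : s ∈ Z
      · have hs' := hs
        rw [hZ, mem_filter, T, mem_filter] at hs'
        obtain ⟨r, hr⟩ := near_dist hs'.1.2 hS hs'.2
        exact ⟨r, fun _ => hr⟩
      · exact ⟨0, fun hs' => absurd hs' hs⟩
    choose r hr using hch
    have h1 : (Z.card : ℝ) ≤ C * ((Q : ℝ) / 2) ^ al := by
      refine hC _ hS Z r ?_ ?_ hr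
      · intro s hs
        rw [hZ, mem_filter] at hs
        exact hs.2
      · intro s hs
        rw [hZ, mem_filter, T, mem_filter, mem_Icc] at hs
        have : (s : ℝ) ≤ Q := by exact_mod_cast hs.1.1.2
        linarith
    -- the lower half
    have h2 := ih (Q / 2) (by omega)
    have h3 : (T 1 Q).card ≤ (T 1 (Q / 2)).card + Z.card := by
      refine le_trans (card_le_card ?_) (card_union_le _ _)
      intro s hs
      rw [mem_union]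
      by_cases h : (Q : ℝ) / 2 < (s : ℝ)
      · right
        rw [hZ, mem_filter]
        exact ⟨hs, h⟩
      · left
        rw [T, mem_filter, mem_Icc] at hs ⊢
        refine ⟨⟨hs.1.1, ?_⟩, hs.2⟩
        push Not at h
        have h4 : (s : ℝ) * 2 ≤ Q := by linarith
        have h5 : s * 2 ≤ Q := by exact_mod_cast h4
        omega
    have h4 : ((Q / 2 : ℕ) : ℝ) ^ al ≤ ((Q : ℝ) / 2) ^ al :=
      Real.rpow_le_rpow (Nat.cast_nonneg _) Nat.cast_div_le hal0.le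
    have h5 : ((Q : ℝ) / 2) ^ al ≤ 2 / 3 * (Q : ℝ) ^ al := by
      rw [Real.div_rpow (by linarith) (by norm_num), div_le_iff₀ (Real.rpow_pos_of_pos (by norm_num) _)]
      have h6 : (3 / 2 : ℝ) ≤ 2 ^ al := by
        have h7 : (3 / 2 : ℝ) ≤ 2 ^ (5 / 7 : ℝ) := by
          have h8 : (3 / 2 : ℝ) ^ 7 ≤ ((2 : ℝ) ^ (5 / 7 : ℝ)) ^ 7 := by
            rw [← Real.rpow_natCast ((2 : ℝ) ^ (5 / 7 : ℝ)), ← Real.rpow_mul (by norm_num)]
            norm_num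
          exact (pow_le_pow_iff_left₀ (by norm_num) (by positivity) (by norm_num)).1 h8
        exact h7.trans (Real.rpow_le_rpow_of_exponent_le (by norm_num) hal)
      have h9 : 0 ≤ (Q : ℝ) ^ al := by positivity
      nlinarith
    have h6 : ((T 1 Q).card : ℝ) ≤ (T 1 (Q / 2)).card + Z.card := by exact_mod_cast h3
    have h7 : 0 ≤ ((Q : ℝ) / 2) ^ al := by positivity
    have h8 : D * ((Q / 2 : ℕ) : ℝ) ^ al ≤ D * ((Q : ℝ) / 2) ^ al :=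
      mul_le_mul_of_nonneg_left h4 (by linarith)
    have h9 : C * ((Q : ℝ) / 2) ^ al ≤ D / 2 * ((Q : ℝ) / 2) ^ al :=
      mul_le_mul_of_nonneg_right hDC h7
    have h10 : D * ((Q : ℝ) / 2) ^ al ≤ D * (2 / 3 * (Q : ℝ) ^ al) :=
      mul_le_mul_of_nonneg_left h5 (by linarith)
    linarith

/-- From a count of lattice points near the curve to the number of failures with a short gap. -/
theorem K_gen (al : ℝ) (hal : 5 / 7 ≤ al)
    (h : ∀ K : ℝ, ∃ C : ℝ, ∀ S : ℝ, 1 ≤ S → ∀ (Z : Finset ℕ) (r : ℕ → ℤ),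
      (∀ s ∈ Z, S < (s : ℝ)) → (∀ s ∈ Z, (s : ℝ) ≤ 2 * S) →
      (∀ s ∈ Z, |(r s : ℝ) - (s : ℝ) ^ (5 / 3 : ℝ)| ≤ K * S ^ (-(5 / 6) : ℝ)) →
      (Z.card : ℝ) ≤ C * S ^ al) :
    ∃ C : ℝ, ∀ x : ℕ, ((K x).ncard : ℝ) ≤ C * (x : ℝ) ^ (al / 5) := by
  obtain ⟨C, hC0, hC⟩ := count_gen al hal h
  have hal0 : 0 < al := by linarith
  refine ⟨(7 + C) * 2 ^ (al / 5), fun x => ?_⟩
  rcases Nat.eq_zero_or_pos x with hx | hx
  · subst hx
    rw [K_zero, Set.ncard_empty, Nat.cast_zero]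
    positivity
  have hx1 : (1 : ℝ) ≤ x := by exact_mod_cast hx
  have h2x : (1 : ℝ) ≤ 2 * (x : ℝ) := by linarith
  have h2x0 : (0 : ℝ) ≤ 2 * (x : ℝ) := by linarith
  set z : ℝ := (2 * (x : ℝ)) ^ (1 / 5 : ℝ) with hz
  set v : ℝ := (2 * (x : ℝ)) ^ (1 / 7 : ℝ) with hv
  have hz0 : 0 ≤ z := by positivity
  have hv0 : 0 ≤ v := by positivity
  have hz5 : z ^ 5 = 2 * x := by
    rw [hz, ← Real.rpow_natCast, ← Real.rpow_mul h2x0]
    norm_num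
  have hv7 : v ^ 7 = 2 * x := by
    rw [hv, ← Real.rpow_natCast, ← Real.rpow_mul h2x0]
    norm_num
  have h1 := K_le x ⌊z⌋₊ ⌊v⌋₊ (by
    intro n hn
    refine Nat.le_floor ?_
    have h2 : ((n : ℝ)) ^ 5 ≤ z ^ 5 := by
      rw [hz5]
      exact_mod_cast hn
    exact (pow_le_pow_iff_left₀ (Nat.cast_nonneg n) hz0 (by norm_num)).1 h2) (by
    intro n hn
    refine Nat.le_floor ?_
    have h2 : ((n : ℝ)) ^ 7 ≤ v ^ 7 := by
      rw [hv7]
      exact_mod_cast hn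
    exact (pow_le_pow_iff_left₀ (Nat.cast_nonneg n) hv0 (by norm_num)).1 h2)
  have h2 : (((T 1 ⌊z⌋₊).card : ℕ) : ℝ) ≤ C * (2 * (x : ℝ)) ^ (al / 5) := by
    refine (hC _).trans (mul_le_mul_of_nonneg_left ?_ hC0)
    have e : (2 * (x : ℝ)) ^ (al / 5) = z ^ al := by
      rw [hz, ← Real.rpow_mul h2x0]
      congr 1
      ring
    rw [e]
    exact Real.rpow_le_rpow (Nat.cast_nonneg _) (Nat.floor_le hz0) hal0.le
  have h3 : v ≤ (2 * (x : ℝ)) ^ (al / 5) :=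
    Real.rpow_le_rpow_of_exponent_le h2x (by linarith)
  have h4 : ((⌊v⌋₊ : ℕ) : ℝ) ≤ v := Nat.floor_le hv0
  have h5 : (((K x).ncard : ℕ) : ℝ) ≤ 7 * ((⌊v⌋₊ : ℕ) : ℝ) + (((T 1 ⌊z⌋₊).card : ℕ) : ℝ) := by
    exact_mod_cast h1
  have h6 : (2 * (x : ℝ)) ^ (al / 5) = 2 ^ (al / 5) * (x : ℝ) ^ (al / 5) :=
    Real.mul_rpow (by norm_num) (Nat.cast_nonneg _)
  calc ((K x).ncard : ℝ) ≤ 7 * ((⌊v⌋₊ : ℕ) : ℝ) + (((T 1 ⌊z⌋₊).card : ℕ) : ℝ) := h5
    _ ≤ 7 * (2 * (x : ℝ)) ^ (al / 5) + C * (2 * (x : ℝ)) ^ (al / 5) := by linarith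
    _ = (7 + C) * 2 ^ (al / 5) * (x : ℝ) ^ (al / 5) := by rw [h6]; ring

end Pool.Agent.H46.LC
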