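import Mathlib

/-!
Fifth powers near cubes: three of them are far apart.

Let `s₁ < s₂ < s₃ ≤ 2 s₁` and let `s_i ^ 5` be at distance at most `4 s_i ^ (5/2)` from the cube
`r_i ^ 3`. With `u_i = s_i ^ (1/3)` the numbers `r_i` differ from `u_i ^ 5` by at most
`4 s_i ^ (-5/6)`, and the integer `(s₂ - s₁) (r₃ - r₁) - (s₃ - s₁) (r₂ - r₁)` differs little from
the same expression with `u_i ^ 5` in place of `r_i`, which is the product of the differences of the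
`u_i` and of a Schur polynomial with positive coefficients. It is positive and it is not smaller than
the error, so the integer is not zero, and this forces `s₁ ≤ 2 (s₃ - s₁) ^ 9`.
-/

namespace Pool.Agent.H46.LC

/-- The Schur polynomial of the partition `(3, 2)` in three variables. -/
private def sch (x y z : ℝ) : ℝ :=
  x ^ 3 * y ^ 2 + x ^ 2 * y ^ 3 + x ^ 3 * z ^ 2 + x ^ 2 * z ^ 3 + y ^ 3 * z ^ 2 + y ^ 2 * z ^ 3 +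
    x ^ 3 * y * z + x * y ^ 3 * z + x * y * z ^ 3 + 2 * (x ^ 2 * y ^ 2 * z) +
    2 * (x ^ 2 * y * z ^ 2) + 2 * (x * y ^ 2 * z ^ 2)

private lemma det_eq (x y z : ℝ) :
    (y ^ 3 - x ^ 3) * (z ^ 5 - x ^ 5) - (z ^ 3 - x ^ 3) * (y ^ 5 - x ^ 5) =
      (y - x) * (z - x) * (z - y) * sch x y z := by
  unfold sch
  ring

private lemma sch_ge {x y z : ℝ} (hx : 0 < x) (hxy : x ≤ y) (hyz : y ≤ z) :
    15 * x ^ 5 ≤ sch x y z := by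
  have hy : 0 < y := hx.trans_le hxy
  have hz : 0 < z := hy.trans_le hyz
  have hxz : x ≤ z := hxy.trans hyz
  have m : ∀ i j k : ℕ, i + j + k = 5 → x ^ 5 ≤ x ^ i * y ^ j * z ^ k := by
    intro i j k h
    have e : x ^ 5 = x ^ i * x ^ j * x ^ k := by rw [← pow_add, ← pow_add, h]
    rw [e]
    gcongr
  unfold sch
  have h1 := m 3 2 0 rfl
  have h2 := m 2 3 0 rfl
  have h3 := m 3 0 2 rfl
  have h4 := m 2 0 3 rfl
  have h5 := m 0 3 2 rfl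
  have h6 := m 0 2 3 rfl
  have h7 := m 3 1 1 rfl
  have h8 := m 1 3 1 rfl
  have h9 := m 1 1 3 rfl
  have h10 := m 2 2 1 rfl
  have h11 := m 2 1 2 rfl
  have h12 := m 1 2 2 rfl
  simp only [pow_zero, pow_one, mul_one, one_mul] at h1 h2 h3 h4 h5 h6 h7 h8 h9 h10 h11 h12
  linarith

private lemma sch_le {x y z : ℝ} (hx : 0 < x) (hxy : x ≤ y) (hyz : y ≤ z) :
    sch x y z ≤ 15 * z ^ 5 := by
  have hy : 0 < y := hx.trans_le hxy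
  have hz : 0 < z := hy.trans_le hyz
  have hxz : x ≤ z := hxy.trans hyz
  have m : ∀ i j k : ℕ, i + j + k = 5 → x ^ i * y ^ j * z ^ k ≤ z ^ 5 := by
    intro i j k h
    have e : z ^ 5 = z ^ i * z ^ j * z ^ k := by rw [← pow_add, ← pow_add, h]
    rw [e]
    gcongr
  unfold sch
  have h1 := m 3 2 0 rfl
  have h2 := m 2 3 0 rfl
  have h3 := m 3 0 2 rfl
  have h4 := m 2 0 3 rfl
  have h5 := m 0 3 2 rfl
  have h6 := m 0 2 3 rfl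
  have h7 := m 3 1 1 rfl
  have h8 := m 1 3 1 rfl
  have h9 := m 1 1 3 rfl
  have h10 := m 2 2 1 rfl
  have h11 := m 2 1 2 rfl
  have h12 := m 1 2 2 rfl
  simp only [pow_zero, pow_one, mul_one, one_mul] at h1 h2 h3 h4 h5 h6 h7 h8 h9 h10 h11 h12
  linarith

/-- `s ^ 5` is at distance at most `4 s ^ (5/2)` from a cube. -/
def Near (s : ℕ) : Prop := ∃ r : ℕ, ((r : ℤ) ^ 3 - (s : ℤ) ^ 5) ^ 2 ≤ 16 * (s : ℤ) ^ 5

lemma delta {r w w₁ : ℝ} (hr : 0 ≤ r) (hw : 0 < w₁) (hww : w₁ ≤ w)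
    (h : (r ^ 3 - (w ^ 6) ^ 5) ^ 2 ≤ 16 * (w ^ 6) ^ 5) :
    |r - (w ^ 2) ^ 5| * w₁ ^ 5 ≤ 4 := by
  have hw0 : 0 < w := hw.trans_le hww
  have h1 : |r ^ 3 - (w ^ 6) ^ 5| ≤ 4 * w ^ 15 := by
    apply abs_le_of_sq_le_sq _ (by positivity)
    calc (r ^ 3 - (w ^ 6) ^ 5) ^ 2 ≤ 16 * (w ^ 6) ^ 5 := h
      _ = (4 * w ^ 15) ^ 2 := by ring
  have h2 : r ^ 3 - (w ^ 6) ^ 5 = (r - (w ^ 2) ^ 5) * (r ^ 2 + r * w ^ 10 + w ^ 20) := by ring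
  rw [h2, abs_mul] at h1
  have h3 : w ^ 20 ≤ |r ^ 2 + r * w ^ 10 + w ^ 20| := by
    rw [abs_of_nonneg (by positivity)]
    have : 0 ≤ r ^ 2 + r * w ^ 10 := by positivity
    linarith
  have h4 : |r - (w ^ 2) ^ 5| * w ^ 20 ≤ 4 * w ^ 15 :=
    (mul_le_mul_of_nonneg_left h3 (abs_nonneg _)).trans h1
  have h5 : |r - (w ^ 2) ^ 5| * w ^ 5 ≤ 4 := by
    have h6 : (|r - (w ^ 2) ^ 5| * w ^ 5) * w ^ 15 ≤ 4 * w ^ 15 := by
      calc (|r - (w ^ 2) ^ 5| * w ^ 5) * w ^ 15 = |r - (w ^ 2) ^ 5| * w ^ 20 := by ring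
        _ ≤ 4 * w ^ 15 := h4
    exact le_of_mul_le_mul_right h6 (by positivity)
  refine le_trans ?_ h5
  gcongr

private lemma main_term {u₁ u₂ u₃ A B C F : ℝ} (q1 : 0 < u₁) (q12 : u₁ < u₂) (q23 : u₂ < u₃)
    (hA : A = u₂ ^ 3 - u₁ ^ 3) (hB : B = u₃ ^ 3 - u₁ ^ 3) (hC : C = u₃ ^ 3 - u₂ ^ 3)
    (h2 : u₃ ^ 3 ≤ 2 * u₁ ^ 3) (hA1 : 1 ≤ A) (hC1 : 1 ≤ C)
    (hF : F = A * (u₃ ^ 5 - u₁ ^ 5) - B * (u₂ ^ 5 - u₁ ^ 5)) :
    0 < F ∧ 15 * B ≤ 108 * u₁ * F ∧ 27 * u₁ * F ≤ 15 * B ^ 3 := by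
  have q2 : 0 < u₂ := q1.trans q12
  have q3 : 0 < u₃ := q2.trans q23
  have hABC : A + C = B := by rw [hA, hB, hC]; ring
  have hB0 : 0 ≤ B := by rw [← hABC]; linarith
  have hAu : A = (u₂ - u₁) * (u₂ ^ 2 + u₂ * u₁ + u₁ ^ 2) := by rw [hA]; ring
  have hBu : B = (u₃ - u₁) * (u₃ ^ 2 + u₃ * u₁ + u₁ ^ 2) := by rw [hB]; ring
  have hCu : C = (u₃ - u₂) * (u₃ ^ 2 + u₃ * u₂ + u₂ ^ 2) := by rw [hC]; ring
  have sq3 : ∀ x y : ℝ, u₁ ≤ x → x ≤ u₃ → u₁ ≤ y → y ≤ u₃ →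
      3 * u₁ ^ 2 ≤ x ^ 2 + x * y + y ^ 2 ∧ x ^ 2 + x * y + y ^ 2 ≤ 3 * u₃ ^ 2 := by
    intro x y h1 h2 h3 h4
    have hx : 0 < x := q1.trans_le h1
    have hy : 0 < y := q1.trans_le h3
    have e1 : u₁ ^ 2 ≤ x ^ 2 := by gcongr
    have e2 : u₁ ^ 2 ≤ y ^ 2 := by gcongr
    have e3 : u₁ ^ 2 ≤ x * y := by
      calc u₁ ^ 2 = u₁ * u₁ := by ring
        _ ≤ x * y := by gcongr
    have f1 : x ^ 2 ≤ u₃ ^ 2 := by gcongr
    have f2 : y ^ 2 ≤ u₃ ^ 2 := by gcongr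
    have f3 : x * y ≤ u₃ ^ 2 := by
      calc x * y ≤ u₃ * u₃ := by gcongr
        _ = u₃ ^ 2 := by ring
    constructor <;> linarith
  obtain ⟨a1, a2⟩ := sq3 u₂ u₁ q12.le q23.le le_rfl (q12.trans q23).le
  obtain ⟨b1, b2⟩ := sq3 u₃ u₁ (q12.trans q23).le le_rfl le_rfl (q12.trans q23).le
  obtain ⟨g1, g2⟩ := sq3 u₃ u₂ (q12.trans q23).le le_rfl q12.le q23.le
  clear sq3
  obtain ⟨V, hV⟩ : ∃ V : ℝ, V = (u₂ - u₁) * (u₃ - u₁) * (u₃ - u₂) := ⟨_, rfl⟩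
  have v1 : 0 < u₂ - u₁ := sub_pos.2 q12
  have v2 : 0 < u₃ - u₁ := sub_pos.2 (q12.trans q23)
  have v3 : 0 < u₃ - u₂ := sub_pos.2 q23
  have hV0 : 0 < V := by rw [hV]; positivity
  have hPlow : 27 * u₁ ^ 6 * V ≤ A * B * C := by
    calc 27 * u₁ ^ 6 * V = ((u₂ - u₁) * (3 * u₁ ^ 2)) * ((u₃ - u₁) * (3 * u₁ ^ 2)) *
          ((u₃ - u₂) * (3 * u₁ ^ 2)) := by rw [hV]; ring
      _ ≤ A * B * C := by rw [hAu, hBu, hCu]; gcongr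
  have hPup0 : A * B * C ≤ 27 * u₃ ^ 6 * V := by
    calc A * B * C ≤ ((u₂ - u₁) * (3 * u₃ ^ 2)) * ((u₃ - u₁) * (3 * u₃ ^ 2)) *
          ((u₃ - u₂) * (3 * u₃ ^ 2)) := by rw [hAu, hBu, hCu]; gcongr
      _ = 27 * u₃ ^ 6 * V := by rw [hV]; ring
  have h36 : u₃ ^ 6 ≤ 4 * u₁ ^ 6 := by
    calc u₃ ^ 6 = (u₃ ^ 3) ^ 2 := by ring
      _ ≤ (2 * u₁ ^ 3) ^ 2 := by gcongr
      _ = 4 * u₁ ^ 6 := by ring
  have h35 : u₃ ^ 5 ≤ 4 * u₁ ^ 5 := by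
    have h1 : u₃ ^ 5 * u₁ ≤ 4 * u₁ ^ 5 * u₁ := by
      calc u₃ ^ 5 * u₁ ≤ u₃ ^ 5 * u₃ := by gcongr; exact (q12.trans q23).le
        _ = u₃ ^ 6 := by ring
        _ ≤ 4 * u₁ ^ 6 := h36
        _ = 4 * u₁ ^ 5 * u₁ := by ring
    exact le_of_mul_le_mul_right h1 q1
  have hPup : A * B * C ≤ 108 * u₁ ^ 6 * V := by
    refine hPup0.trans (mul_le_mul_of_nonneg_right ?_ hV0.le)
    linarith
  have hFV : F = V * sch u₁ u₂ u₃ := by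
    rw [hF, hV, ← det_eq, hA, hB]
  have hF1 : 15 * u₁ ^ 5 * V ≤ F := by
    rw [hFV, mul_comm V]
    exact mul_le_mul_of_nonneg_right (sch_ge q1 q12.le q23.le) hV0.le
  have hF2 : F ≤ 60 * u₁ ^ 5 * V := by
    rw [hFV, mul_comm V]
    refine mul_le_mul_of_nonneg_right ((sch_le q1 q12.le q23.le).trans ?_) hV0.le
    linarith
  have hF0 : 0 < F := lt_of_lt_of_le (by positivity) hF1
  have hPB : B ≤ A * B * C := by
    have h1 : 1 ≤ A * C := one_le_mul_of_one_le_of_one_le hA1 hC1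
    calc B = B * 1 := by ring
      _ ≤ B * (A * C) := by gcongr
      _ = A * B * C := by ring
  have hPB3 : 4 * (A * B * C) ≤ B ^ 3 := by
    have h1 : 4 * A * C ≤ B ^ 2 := by rw [← hABC]; exact four_mul_le_sq_add A C
    calc 4 * (A * B * C) = B * (4 * A * C) := by ring
      _ ≤ B * B ^ 2 := by gcongr
      _ = B ^ 3 := by ring
  refine ⟨hF0, ?_, ?_⟩
  · calc 15 * B ≤ 15 * (108 * u₁ ^ 6 * V) := by
          exact mul_le_mul_of_nonneg_left (hPB.trans hPup) (by norm_num)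
      _ = 108 * u₁ * (15 * u₁ ^ 5 * V) := by ring
      _ ≤ 108 * u₁ * F := by gcongr
  · calc 27 * u₁ * F ≤ 27 * u₁ * (60 * u₁ ^ 5 * V) := by gcongr
      _ = 60 * (27 * u₁ ^ 6 * V) := by ring
      _ ≤ 60 * (A * B * C) := by gcongr
      _ = 15 * (4 * (A * B * C)) := by ring
      _ ≤ 15 * B ^ 3 := by gcongr

private lemma error_term {A B C E x y z W : ℝ} (hA : 0 ≤ A) (hB : 0 ≤ B) (hC : 0 ≤ C)
    (hABC : A + C = B) (hE : E = A * z - B * y + C * x) (hW : 0 ≤ W) (hx : |x| * W ≤ 4)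
    (hy : |y| * W ≤ 4) (hz : |z| * W ≤ 4) : |E| * W ≤ 8 * B := by
  have h1 : |E| ≤ A * |z| + B * |y| + C * |x| := by
    rw [hE]
    refine (abs_add_le _ _).trans (add_le_add ((abs_sub _ _).trans (add_le_add ?_ ?_)) ?_)
    · rw [abs_mul, abs_of_nonneg hA]
    · rw [abs_mul, abs_of_nonneg hB]
    · rw [abs_mul, abs_of_nonneg hC]
  calc |E| * W ≤ (A * |z| + B * |y| + C * |x|) * W := by gcongr
    _ = A * (|z| * W) + B * (|y| * W) + C * (|x| * W) := by ring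
    _ ≤ A * 4 + B * 4 + C * 4 := by gcongr
    _ = 8 * B := by rw [← hABC]; ring

private lemma final {w B F E : ℝ} {D : ℤ} (hw : 0 < w) (cube : 58 ≤ w ^ 3) (hB1 : 1 ≤ B)
    (hB9 : 2 * B ^ 9 < w ^ 6) (hF0 : 0 < F) (k1 : 15 * B ≤ 108 * w ^ 2 * F)
    (k2 : 27 * w ^ 2 * F ≤ 15 * B ^ 3) (hE1 : |E| * w ^ 5 ≤ 8 * B) (hD : (D : ℝ) = F + E) :
    False := by
  have hB0 : 0 < B := by linarith
  by_cases hD0 : D = 0
  · have h1 : F ≤ |E| := by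
      rw [hD0, Int.cast_zero] at hD
      have : F = -E := by linarith
      rw [this]
      exact neg_le_abs E
    have h3 : (15 * w ^ 3) * (w ^ 2 * B) ≤ 864 * (w ^ 2 * B) := by
      calc (15 * w ^ 3) * (w ^ 2 * B) = 15 * B * w ^ 5 := by ring
        _ ≤ 108 * w ^ 2 * F * w ^ 5 := by gcongr
        _ ≤ 108 * w ^ 2 * |E| * w ^ 5 := by gcongr
        _ = 108 * w ^ 2 * (|E| * w ^ 5) := by ring
        _ ≤ 108 * w ^ 2 * (8 * B) := by gcongr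
        _ = 864 * (w ^ 2 * B) := by ring
    have h4 := le_of_mul_le_mul_right h3 (by positivity)
    linarith
  · have h1 : (1 : ℝ) ≤ |(D : ℝ)| := by
      have : (1 : ℤ) ≤ |D| := Int.one_le_abs hD0
      exact_mod_cast this
    have h2 : (1 : ℝ) ≤ F + |E| := by
      refine h1.trans ?_
      rw [hD]
      refine (abs_add_le _ _).trans ?_
      rw [abs_of_pos hF0]
    have hB3 : B ^ 3 < 4 / 5 * w ^ 2 := by
      by_contra h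
      push Not at h
      have h3 : (4 / 5 * w ^ 2) ^ 3 ≤ (B ^ 3) ^ 3 := by gcongr
      have h4 : (4 / 5 * w ^ 2) ^ 3 = 64 / 125 * w ^ 6 := by ring
      have h5 : (B ^ 3) ^ 3 = B ^ 9 := by ring
      have h6 : 0 < w ^ 6 := by positivity
      rw [h4, h5] at h3
      linarith
    have hBB : B ≤ B ^ 3 := le_self_pow₀ hB1 (by norm_num)
    have hBw : B ≤ 4 / 5 * w ^ 2 := hBB.trans hB3.le
    have h4 : 27 * w ^ 7 ≤ 12 * w ^ 7 + 864 / 5 * w ^ 4 := by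
      calc 27 * w ^ 7 = 27 * w ^ 2 * w ^ 5 * 1 := by ring
        _ ≤ 27 * w ^ 2 * w ^ 5 * (F + |E|) := by gcongr
        _ = (27 * w ^ 2 * F) * w ^ 5 + 27 * w ^ 2 * (|E| * w ^ 5) := by ring
        _ ≤ (15 * B ^ 3) * w ^ 5 + 27 * w ^ 2 * (8 * B) := by gcongr
        _ ≤ (15 * (4 / 5 * w ^ 2)) * w ^ 5 + 27 * w ^ 2 * (8 * (4 / 5 * w ^ 2)) := by gcongr
        _ = 12 * w ^ 7 + 864 / 5 * w ^ 4 := by ring
    have h5 : (15 * w ^ 3) * w ^ 4 ≤ (864 / 5) * w ^ 4 := by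
      calc (15 * w ^ 3) * w ^ 4 = 15 * w ^ 7 := by ring
        _ ≤ (864 / 5) * w ^ 4 := by linarith
    have h6 := le_of_mul_le_mul_right h5 (by positivity)
    linarith

/-- Three numbers whose fifth powers are near cubes are far apart. -/
theorem three {s₁ s₂ s₃ : ℕ} (h0 : 3400 ≤ s₁) (h12 : s₁ < s₂) (h23 : s₂ < s₃) (h13 : s₃ ≤ 2 * s₁)
    (n₁ : Near s₁) (n₂ : Near s₂) (n₃ : Near s₃) : s₁ ≤ 2 * (s₃ - s₁) ^ 9 := by
  obtain ⟨r₁, n₁⟩ := n₁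
  obtain ⟨r₂, n₂⟩ := n₂
  obtain ⟨r₃, n₃⟩ := n₃
  by_contra hcon
  push Not at hcon
  have root : ∀ s : ℕ, ∃ w : ℝ, 0 ≤ w ∧ w ^ 6 = s := by
    intro s
    refine ⟨(s : ℝ) ^ (1 / 6 : ℝ), by positivity, ?_⟩
    rw [← Real.rpow_natCast, ← Real.rpow_mul (Nat.cast_nonneg _)]
    norm_num
  obtain ⟨w₁, hw₁, e₁⟩ := root s₁
  obtain ⟨w₂, hw₂, e₂⟩ := root s₂
  obtain ⟨w₃, hw₃, e₃⟩ := root s₃
  have c0 : (3400 : ℝ) ≤ s₁ := by exact_mod_cast h0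
  have c12 : (s₁ : ℝ) + 1 ≤ s₂ := by exact_mod_cast h12
  have c23 : (s₂ : ℝ) + 1 ≤ s₃ := by exact_mod_cast h23
  have c13 : (s₃ : ℝ) ≤ 2 * s₁ := by exact_mod_cast h13
  have l12 : w₁ < w₂ := lt_of_pow_lt_pow_left₀ 6 hw₂ (by rw [e₁, e₂]; linarith)
  have l23 : w₂ < w₃ := lt_of_pow_lt_pow_left₀ 6 hw₃ (by rw [e₂, e₃]; linarith)
  have p1 : 0 < w₁ := by
    rcases hw₁.eq_or_lt with h | h
    · rw [← h] at e₁
      norm_num at e₁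
      linarith
    · exact h
  have p2 : 0 < w₂ := p1.trans l12
  have p3 : 0 < w₃ := p2.trans l23
  have cube : (58 : ℝ) ≤ w₁ ^ 3 := by
    apply le_of_sq_le_sq _ (by positivity)
    calc (58 : ℝ) ^ 2 ≤ s₁ := by linarith
      _ = (w₁ ^ 3) ^ 2 := by rw [← e₁]; ring
  have d₁ := delta (r := r₁) (Nat.cast_nonneg _) p1 le_rfl (by rw [e₁]; exact_mod_cast n₁)
  have d₂ := delta (r := r₂) (Nat.cast_nonneg _) p1 l12.le (by rw [e₂]; exact_mod_cast n₂)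
  have d₃ := delta (r := r₃) (Nat.cast_nonneg _) p1 (l12.trans l23).le
    (by rw [e₃]; exact_mod_cast n₃)
  have t₁ : (w₁ ^ 2) ^ 3 = s₁ := by rw [← e₁]; ring
  have t₂ : (w₂ ^ 2) ^ 3 = s₂ := by rw [← e₂]; ring
  have t₃ : (w₃ ^ 2) ^ 3 = s₃ := by rw [← e₃]; ring
  have hA1 : 1 ≤ (s₂ : ℝ) - s₁ := by linarith
  have hC1 : 1 ≤ (s₃ : ℝ) - s₂ := by linarith
  have hB1 : 1 ≤ (s₃ : ℝ) - s₁ := by linarith
  obtain ⟨hF0, k1, k2⟩ := main_term (u₁ := w₁ ^ 2) (u₂ := w₂ ^ 2) (u₃ := w₃ ^ 2)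
    (A := (s₂ : ℝ) - s₁) (B := (s₃ : ℝ) - s₁) (C := (s₃ : ℝ) - s₂) (by positivity)
    (pow_lt_pow_left₀ l12 p1.le (by norm_num)) (pow_lt_pow_left₀ l23 p2.le (by norm_num))
    (by rw [t₁, t₂]) (by rw [t₁, t₃]) (by rw [t₂, t₃]) (by rw [t₁, t₃]; exact c13) hA1 hC1 rfl
  have hE1 := error_term (A := (s₂ : ℝ) - s₁) (B := (s₃ : ℝ) - s₁) (C := (s₃ : ℝ) - s₂)
    (by linarith) (by linarith) (by linarith) (by ring) rfl (by positivity : 0 ≤ w₁ ^ 5) d₁ d₂ d₃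
  have hB9 : 2 * ((s₃ : ℝ) - s₁) ^ 9 < w₁ ^ 6 := by
    have h3 : ((s₃ - s₁ : ℕ) : ℝ) = (s₃ : ℝ) - s₁ := Nat.cast_sub (by omega)
    have h4 : ((2 * (s₃ - s₁) ^ 9 : ℕ) : ℝ) < (s₁ : ℝ) := by exact_mod_cast hcon
    rw [Nat.cast_mul, Nat.cast_pow, h3] at h4
    rw [e₁]
    exact_mod_cast h4
  refine final (D := ((s₂ : ℤ) - s₁) * ((r₃ : ℤ) - r₁) - ((s₃ : ℤ) - s₁) * ((r₂ : ℤ) - r₁))
    p1 cube hB1 hB9 hF0 k1 k2 hE1 ?_
  push_cast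
  ring

end Pool.Agent.H46.LC
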