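import Pool.Agent.H83.LC.Cnt
import Pool.Agent.H46.LC.Tri

/-!
A failure with a short gap has in its gap a prime power with exponent at least seven, or both a cube
and a fifth power of primes.
-/

namespace Pool.Agent.H46.LC

open Finset Pool.Agent.H83.LC

/-- If all exponents are at most six and one of the odd ones (`3` or `5`) does not occur, the product
of the primes is too small. -/
lemma no_fail {p p' e : ℕ} (he : e = 3 ∨ e = 5) (hp : 64 ≤ p) (hpp : p < p') (hp2 : p' ≤ 2 * p)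
    (hcons : ∀ r, p < r → r < p' → ¬ r.Prime) (hgap : (p' - p) ^ 2 ≤ 16 * p)
    (hfail : p * Nat.lcmUpto p ≤ Nat.lcmUpto (p' - 1))
    (hexp : ∀ q ∈ S p (p' - 1), Nat.log q (p' - 1) = e ∨ Nat.log q (p' - 1) = 2 ∨
      Nat.log q (p' - 1) = 4 ∨ Nat.log q (p' - 1) = 6) : False := by
  have hsmall : ∀ q ∈ S p (p' - 1), Nat.log q (p' - 1) ≤ 6 := by
    intro q hq
    rcases hexp q hq with h | h | h | h <;> rcases he with h' | h' <;> omega
  have hodd : ∀ q ∈ S p (p' - 1), q ≠ 2 := by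
    rintro q hq rfl
    obtain ⟨h1, h2, h3⟩ := pow_mem (by omega) hpp hcons hq
    have h4 : 2 ^ Nat.log 2 (p' - 1) ≤ 2 ^ 6 := Nat.pow_le_pow_right (by norm_num) (hsmall 2 hq)
    omega
  have hcop : ∀ q ∈ S p (p' - 1), ∀ r ∈ S p (p' - 1), q ≠ r →
      Nat.gcd (Nat.log q (p' - 1)) (Nat.log r (p' - 1)) = 1 := by
    intro q hq r hr hqr
    obtain ⟨h1, h2, h3⟩ := pow_mem (by omega) hpp hcons hq
    obtain ⟨h4, h5, h6⟩ := pow_mem (by omega) hpp hcons hr
    exact coprime_exp hgap (mem_S.1 hq).2.1 (mem_S.1 hr).2.1 hqr (hodd q hq) (hodd r hr) h3 h6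
      h1 h2 h4 h5
  set A := (S p (p' - 1)).filter (fun q => Nat.log q (p' - 1) ≠ e) with hA
  set B := (S p (p' - 1)).filter (fun q => ¬ Nat.log q (p' - 1) ≠ e) with hB
  have hprod : (∏ q ∈ A, q) * (∏ q ∈ B, q) = ∏ q ∈ S p (p' - 1), q :=
    prod_filter_mul_prod_filter_not _ _ _
  have hA2 : (∏ q ∈ A, q) ^ 2 < p' := by
    refine prod_pow_lt (by omega) ?_ ?_
    · intro q hq r hr
      rw [hA, mem_filter] at hq hr
      by_contra hqr
      have h1 := hcop q hq.1 r hr.1 hqr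
      rcases (hexp q hq.1).resolve_left hq.2 with h2 | h2 | h2 <;>
        rcases (hexp r hr.1).resolve_left hr.2 with h3 | h3 | h3 <;>
        rw [h2, h3] at h1 <;> norm_num at h1
    · intro q hq
      rw [hA, mem_filter] at hq
      obtain ⟨h1, h2, h3⟩ := pow_mem (by omega) hpp hcons hq.1
      exact lt_of_le_of_lt (Nat.pow_le_pow_right (mem_S.1 hq.1).2.1.pos h3) h2
  have hBe : (∏ q ∈ B, q) ^ e < p' := by
    refine prod_pow_lt (by omega) ?_ ?_
    · intro q hq r hr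
      rw [hB, mem_filter, not_not] at hq hr
      by_contra hqr
      have h1 := hcop q hq.1 r hr.1 hqr
      rw [hq.2, hr.2, Nat.gcd_self] at h1
      rcases he with h' | h' <;> omega
    · intro q hq
      rw [hB, mem_filter, not_not] at hq
      obtain ⟨h1, h2, h3⟩ := pow_mem (by omega) hpp hcons hq.1
      rw [hq.2] at h2
      exact h2
  have hle : p ≤ ∏ q ∈ S p (p' - 1), q := by
    have h1 := hfail.trans (lcm_le (p := p) (m := p' - 1) (by omega))
    have h2 := Nat.lcmUpto_pos p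
    rw [mul_comm] at h1
    exact Nat.le_of_mul_le_mul_left h1 h2
  rw [← hprod] at hle
  generalize ∏ q ∈ A, q = x at *
  generalize ∏ q ∈ B, q = y at *
  have h1 : p ^ (2 * e) ≤ (x * y) ^ (2 * e) := Nat.pow_le_pow_left hle _
  have h2 : (x * y) ^ (2 * e) = (x ^ 2) ^ e * (y ^ e) ^ 2 := by
    rw [mul_pow, pow_mul, mul_comm 2 e, pow_mul]
  have he0 : e ≠ 0 := by rcases he with h | h <;> omega
  have h3 : (x ^ 2) ^ e < p' ^ e := Nat.pow_lt_pow_left hA2 he0
  have h4 : (y ^ e) ^ 2 < p' ^ 2 := Nat.pow_lt_pow_left hBe (by norm_num)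
  have h5 : (x ^ 2) ^ e * (y ^ e) ^ 2 < p' ^ e * p' ^ 2 := Nat.mul_lt_mul'' h3 h4
  have h6 : p' ^ e * p' ^ 2 ≤ (2 * p) ^ (e + 2) := by
    rw [← pow_add]
    exact Nat.pow_le_pow_left hp2 _
  have h7 : (2 * p) ^ (e + 2) ≤ p ^ (2 * e) := by
    rcases he with h | h
    · subst h
      calc (2 * p) ^ 5 = 32 * p ^ 5 := by ring
        _ ≤ p * p ^ 5 := Nat.mul_le_mul_right _ (by omega)
        _ = p ^ 6 := by ring
    · subst h
      have h8 : 128 ≤ p ^ 3 := by
        calc 128 ≤ 64 ^ 3 := by norm_num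
          _ ≤ p ^ 3 := Nat.pow_le_pow_left hp 3
      calc (2 * p) ^ 7 = 128 * p ^ 7 := by ring
        _ ≤ p ^ 3 * p ^ 7 := Nat.mul_le_mul_right _ h8
        _ = p ^ 10 := by ring
  omega

/-- A failure with a short gap, `p ≥ 64`. -/
lemma seven_or {p p' : ℕ} (hp : 64 ≤ p) (hpp : p < p') (hp2 : p' ≤ 2 * p)
    (hcons : ∀ r, p < r → r < p' → ¬ r.Prime) (hgap : (p' - p) ^ 2 ≤ 16 * p)
    (hfail : p * Nat.lcmUpto p ≤ Nat.lcmUpto (p' - 1)) :
    (∃ q a : ℕ, q.Prime ∧ 7 ≤ a ∧ p < q ^ a ∧ q ^ a < p') ∨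
      ∃ r s : ℕ, s.Prime ∧ p < r ^ 3 ∧ r ^ 3 < p' ∧ p < s ^ 5 ∧ s ^ 5 < p' := by
  by_contra hcon
  push Not at hcon
  obtain ⟨hc1, hc2⟩ := hcon
  have hsmall : ∀ q ∈ S p (p' - 1), Nat.log q (p' - 1) ≤ 6 ∧ 2 ≤ Nat.log q (p' - 1) := by
    intro q hq
    obtain ⟨h1, h2, h3⟩ := pow_mem (by omega) hpp hcons hq
    refine ⟨?_, h3⟩
    by_contra h
    push Not at h
    have h4 := hc1 q (Nat.log q (p' - 1)) (mem_S.1 hq).2.1 (by omega) h1
    omega
  by_cases h3 : ∃ r ∈ S p (p' - 1), Nat.log r (p' - 1) = 3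
  · obtain ⟨r, hr, hr3⟩ := h3
    obtain ⟨g1, g2, g3⟩ := pow_mem (by omega) hpp hcons hr
    rw [hr3] at g1 g2
    refine no_fail (Or.inl rfl) hp hpp hp2 hcons hgap hfail ?_
    intro q hq
    obtain ⟨h4, h5⟩ := hsmall q hq
    have h6 : Nat.log q (p' - 1) ≠ 5 := by
      intro h
      obtain ⟨f1, f2, f3⟩ := pow_mem (by omega) hpp hcons hq
      rw [h] at f1 f2
      have := hc2 r q (mem_S.1 hq).2.1 g1 g2 f1
      omega
    omega
  · push Not at h3
    refine no_fail (Or.inr rfl) hp hpp hp2 hcons hgap hfail ?_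
    intro q hq
    obtain ⟨h4, h5⟩ := hsmall q hq
    have h6 := h3 q hq
    omega

/-- The same for every failure. -/
lemma K_seven {x k : ℕ} (hk : k ∈ K x) :
    (∃ q a : ℕ, q.Prime ∧ 7 ≤ a ∧ Nat.nth Nat.Prime k < q ^ a ∧
      q ^ a < Nat.nth Nat.Prime (k + 1)) ∨
    ∃ s : ℕ, s.Prime ∧ Near s ∧ Nat.nth Nat.Prime k < s ^ 5 ∧ s ^ 5 < Nat.nth Nat.Prime (k + 1) := by
  have hk' := hk
  obtain ⟨h1, h2, h3⟩ := hk
  have hp := Nat.prime_nth_prime k
  have hp' := Nat.prime_nth_prime (k + 1)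
  have hlt : Nat.nth Nat.Prime k < Nat.nth Nat.Prime (k + 1) :=
    Nat.nth_strictMono Nat.infinite_setOfPred_prime (Nat.lt_succ_self k)
  have hcons := nth_cons k
  have hge : 64 ≤ Nat.nth Nat.Prime k := by
    by_contra hcon
    push Not at hcon
    obtain ⟨q, a, hq, ha, h4, h5⟩ := K_five hk'
    have h32 : 32 ≤ Nat.nth Nat.Prime k := by
      by_contra h
      push Not at h
      have := small hp h hp' hlt hcons
      omega
    generalize Nat.nth Nat.Prime k = p at *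
    generalize Nat.nth Nat.Prime (k + 1) = p' at *
    have h67 : p' ≤ 67 := small_step 67 (by norm_num) (by omega) hcons
    have hq3 : q < 3 := by
      by_contra h
      push Not at h
      have h6 : 3 ^ 5 ≤ q ^ a :=
        (Nat.pow_le_pow_left h 5).trans (Nat.pow_le_pow_right hq.pos ha)
      omega
    have hq2 : q = 2 := by
      have := hq.two_le
      omega
    subst hq2
    have ha6 : a = 6 := by
      have h7 : a < 7 := by
        by_contra h
        push Not at h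
        have : 2 ^ 7 ≤ 2 ^ a := Nat.pow_le_pow_right (by norm_num) h
        omega
      have h8 : a ≠ 5 := by
        rintro rfl
        omega
      omega
    subst ha6
    have h61 : 61 ≤ p := by
      by_contra h
      have := small_step 61 (by norm_num) (by omega : p < 61) hcons
      omega
    have hp61 : p = 61 := by
      interval_cases p
      · rfl
      · exfalso; revert hp; norm_num
      · exfalso; revert hp; norm_num
    subst hp61
    have hp67 : p' = 67 := by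
      interval_cases p'
      · exfalso; revert hp'; norm_num
      · exfalso; revert hp'; norm_num
      · rfl
    subst hp67
    revert h3
    decide +kernel
  rcases seven_or hge hlt (nth_le_two_mul k) hcons h2 h3 with h | ⟨r, s, hs, g1, g2, f1, f2⟩
  · exact Or.inl h
  · refine Or.inr ⟨s, hs, ⟨r, ?_⟩, f1, f2⟩
    generalize Nat.nth Nat.Prime k = p at *
    generalize Nat.nth Nat.Prime (k + 1) = p' at *
    have e1 : ((r : ℤ) ^ 3 - (s : ℤ) ^ 5) ^ 2 ≤ ((p' - p : ℕ) : ℤ) ^ 2 := by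
      have a1 : (p : ℤ) < (r : ℤ) ^ 3 := by exact_mod_cast g1
      have a2 : (r : ℤ) ^ 3 < p' := by exact_mod_cast g2
      have a3 : (p : ℤ) < (s : ℤ) ^ 5 := by exact_mod_cast f1
      have a4 : (s : ℤ) ^ 5 < p' := by exact_mod_cast f2
      rw [Nat.cast_sub hlt.le]
      apply sq_le_sq'
      · linarith
      · linarith
    have e2 : (((p' - p : ℕ) : ℤ)) ^ 2 ≤ 16 * (p : ℤ) := by exact_mod_cast h2
    have e3 : (p : ℤ) ≤ (s : ℤ) ^ 5 := by exact_mod_cast f1.le
    linarith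

end Pool.Agent.H46.LC
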